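import Pool.Agent.Helper132.H3Refl.P1
import Pool.Agent.Helper132.H3Refl.Maxq

/-!
# Infinitely many maximal quasi-arithmetic reflection groups in hyperbolic 3-space

There are infinitely many pairwise non-conjugate maximal reflection groups in Isom(`ℍ³`) that are
quasi-arithmetic.
-/

set_option autoImplicit false

open scoped ENNReal

noncomputable section

namespace Pool.Agent.Results.MP_61642b_gt.InfinitelyMany

/-- Minkowski space `ℝ⁴` -/
abbrev V : Type := Fin 4 → ℝ

/-- the Lorentz form `-x₀y₀ + x₁y₁ + x₂y₂ + x₃y₃` -/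
def J (x y : V) : ℝ := -(x 0 * y 0) + x 1 * y 1 + x 2 * y 2 + x 3 * y 3

/-- hyperbolic 3-space, hyperboloid model -/
def H3 : Set V := {x | J x x = -1 ∧ 0 < x 0}

/-- the linear automorphisms of `ℝ⁴` -/
def G : Type := V ≃ₗ[ℝ] V

instance groupG : Group G := inferInstanceAs (Group (V ≃ₗ[ℝ] V))

/-- the action of a linear automorphism -/
def act (g : G) (x : V) : V := (show V ≃ₗ[ℝ] V from g) x

/-- `g` is an isometry of hyperbolic 3-space: it preserves the Lorentz form and the sheet `H3` -/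
def IsIsom (g : G) : Prop := (∀ x y, J (act g x) (act g y) = J x y) ∧ ∀ x ∈ H3, act g x ∈ H3

/-- `g` is the reflection in the hyperplane orthogonal to a spacelike vector `e` -/
def IsReflection (g : G) : Prop := ∃ e : V, 0 < J e e ∧ ∀ x, act g x = x - (2 * J x e / J e e) • e

/-- standard basis vector -/
def bas (i : Fin 4) : V := Pi.single i 1

/-- discreteness: some neighbourhood of the identity contains no other element of the group -/
def IsDiscrete (Γ : Subgroup G) : Prop :=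
  ∃ ε : ℝ, 0 < ε ∧ ∀ g ∈ Γ, (∀ i j, |act g (bas i) j - bas i j| < ε) → g = 1

/-- `x₀ = √(1 + u₀² + u₁² + u₂²)` -/
def height (u : Fin 3 → ℝ) : ℝ := √(1 + u 0 ^ 2 + u 1 ^ 2 + u 2 ^ 2)

/-- the point of the hyperboloid above `u ∈ ℝ³` -/
def lift (u : Fin 3 → ℝ) : V := ![height u, u 0, u 1, u 2]

/-- hyperbolic volume: density `dx₁dx₂dx₃/x₀` on the hyperboloid -/
def hypVol (F : Set V) : ℝ≥0∞ := ∫⁻ u in {u | lift u ∈ F}, ENNReal.ofReal (1 / height u)

/-- finite covolume: the translates of a Borel set of finite hyperbolic volume cover `H3` -/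
def FiniteCovolume (Γ : Subgroup G) : Prop :=
  ∃ F : Set V, MeasurableSet F ∧ F ⊆ H3 ∧ hypVol F < ∞ ∧ ∀ x ∈ H3, ∃ g ∈ Γ, act g x ∈ F

/-- reflection group: a discrete subgroup of `Isom(H3)` of finite covolume generated by reflections -/
structure ReflectionGroup (Γ : Subgroup G) : Prop where
  isom : ∀ g ∈ Γ, IsIsom g
  generated : Γ = Subgroup.closure {g | g ∈ Γ ∧ IsReflection g}
  discrete : IsDiscrete Γ
  covolume : FiniteCovolume Γ

/-- maximal reflection group: not properly contained in another reflection group -/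
def MaximalReflectionGroup (Γ : Subgroup G) : Prop :=
  ReflectionGroup Γ ∧ ∀ Γ', ReflectionGroup Γ' → Γ ≤ Γ' → Γ' = Γ

/-- the field `K ⊆ ℝ` is totally real -/
def TotallyReal (K : Subfield ℝ) : Prop := ∀ (τ : K →+* ℂ) (x : K), (τ x).im = 0

/-- the bilinear form with matrix `F` -/
def formOf {K : Subfield ℝ} (F : Matrix (Fin 4) (Fin 4) K) (x y : V) : ℝ :=
  ∑ i, ∑ j, x i * (F i j : ℝ) * y j

/-- the form `F` is positive definite under every embedding `K → ℝ` other than the identity -/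
def DefiniteElsewhere {K : Subfield ℝ} (F : Matrix (Fin 4) (Fin 4) K) : Prop :=
  ∀ σ : K →+* ℝ, σ ≠ K.subtype → (F.map σ).PosDef

/-- Vinberg's quasi-arithmeticity: for some totally real number field `K ⊆ ℝ` and some quadratic form `F` over
`K` which is equivalent to `J` over `ℝ` (through `P`) and positive definite under all other embeddings of `K`,
the elements of the group have, in the coordinates given by `P`, matrices with entries in `K`, that is, they lie
in `PO(F, K)` -/
def QuasiArithmetic (Γ : Subgroup G) : Prop :=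
  ∃ K : Subfield ℝ, FiniteDimensional ℚ K ∧ TotallyReal K ∧
    ∃ F : Matrix (Fin 4) (Fin 4) K, F.IsSymm ∧ DefiniteElsewhere F ∧
      ∃ P : G, (∀ x y, J (act P x) (act P y) = formOf F x y) ∧
        ∀ g ∈ Γ, ∀ i j, act (P⁻¹ * g * P) (bas j) i ∈ K

/-- the subgroups `A` and `B` are conjugate in `Isom(H3)` -/
def Conjugate (A B : Subgroup G) : Prop := ∃ g : G, IsIsom g ∧ ∀ x, x ∈ B ↔ g⁻¹ * x * g ∈ A

/-! ### Comparison with the definitions used in the proof -/

open Pool.Agent.Helper132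

theorem isom_iff (g : G) : IsIsom g ↔ (show V ≃ₗ[ℝ] V from g) ∈ H3Refl.IsomH3 := Iff.rfl

theorem discr_iff (Γ : Subgroup G) : IsDiscrete Γ ↔ H3Refl.Discr Γ := Iff.rfl

theorem hvol_eq (F : Set V) : hypVol F = H3Refl.hvol F := rfl

theorem covol_iff (Γ : Subgroup G) : FiniteCovolume Γ ↔ H3Refl.FinCovol Γ := Iff.rfl

theorem reflectionGroup_iff (Γ : Subgroup G) : ReflectionGroup Γ ↔ H3Refl.ReflGroup Γ :=
  ⟨fun h => ⟨h.isom, h.generated, h.discrete, h.covolume⟩, fun h => ⟨h.le, h.gen, h.discr, h.fincov⟩⟩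

theorem maximal_iff (Γ : Subgroup G) : MaximalReflectionGroup Γ ↔ H3Refl.MaxRefl Γ :=
  ⟨fun h => ⟨(reflectionGroup_iff Γ).mp h.1, fun Γ' h' hle => h.2 Γ' ((reflectionGroup_iff Γ').mpr h') hle⟩,
    fun h => ⟨(reflectionGroup_iff Γ).mpr h.1, fun Γ' h' hle => h.2 Γ' ((reflectionGroup_iff Γ').mp h') hle⟩⟩

theorem quasi_of (Γ : Subgroup G) (h : H3Refl.QuasiArith Γ) : QuasiArithmetic Γ := by
  obtain ⟨K, h1, h2, F, h3, h4, P, h5, h6⟩ := h
  exact ⟨K, h1, h2, F, h3, h4, P, h5, fun g hg i j => h6 g hg i j⟩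

theorem conj_symm {A B : Subgroup G} (h : Conjugate A B) : Conjugate B A := by
  obtain ⟨g, hg, h⟩ := h
  refine ⟨g⁻¹, H3Refl.IsomH3.inv_mem hg, fun x => ?_⟩
  rw [h, inv_inv]
  have : g⁻¹ * (g * x * g⁻¹) * g = x := by group
  rw [this]

/-- There are infinitely many pairwise non-conjugate maximal reflection groups in Isom(`ℍ³`) that are
quasi-arithmetic. -/
theorem result : ∃ M : ℕ → Subgroup G, (∀ n, MaximalReflectionGroup (M n) ∧ QuasiArithmetic (M n)) ∧
    ∀ m n, m ≠ n → ¬ Conjugate (M m) (M n) := by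
  have hc : ∀ n : ℕ, ∃ M : Subgroup G, MaximalReflectionGroup M ∧ QuasiArithmetic M ∧
      H3Refl.Gam (n + 1) ≤ M := by
    intro n
    obtain ⟨M, h1, h2, h3⟩ := H3Refl.max_quasi (n + 1) (by omega)
    exact ⟨M, (maximal_iff M).mpr h1, quasi_of M h2, h3⟩
  choose M h1 h2 h3 using hc
  -- each `M n` is conjugate to only finitely many of the `M m`
  have hfin : ∀ n, {m : ℕ | Conjugate (M m) (M n)}.Finite := by
    intro n
    have hM := (maximal_iff _).mp (h1 n)
    have hf := H3Refl.fin_orbits (n + 1) (by omega) hM.1.le hM.1.discr (h3 n)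
    refine (hf.preimage (f := fun m : ℕ => m + 1) (fun a _ b _ h => by simpa using h)).subset ?_
    rintro m ⟨g, hg, h⟩
    show ∃ k ∈ H3Refl.IsomH3, ∀ γ ∈ H3Refl.Gam (m + 1), k * γ * k⁻¹ ∈ M n
    have h4 : ∀ γ : G, γ ∈ M m → g * γ * g⁻¹ ∈ M n := by
      intro γ hγ
      rw [h]
      have : g⁻¹ * (g * γ * g⁻¹) * g = γ := by group
      rw [this]
      exact hγ
    exact ⟨g, hg, fun γ hγ => h4 γ (h3 m hγ)⟩
  have : Std.Symm (fun m n => ¬ Conjugate (M m) (M n)) := ⟨fun m n h h' => h (conj_symm h')⟩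
  obtain ⟨f, -, hf⟩ := exists_seq_of_forall_finset_exists' (fun _ : ℕ => True)
    (fun m n => ¬ Conjugate (M m) (M n)) (by
      intro s _
      have hs : (⋃ x ∈ s, {m : ℕ | Conjugate (M m) (M x)}).Finite :=
        Set.Finite.biUnion s.finite_toSet (fun x _ => hfin x)
      obtain ⟨y, hy⟩ := hs.exists_notMem
      refine ⟨y, trivial, fun x hx hxy => hy ?_⟩
      simp only [Set.mem_iUnion]
      exact ⟨x, hx, conj_symm hxy⟩)
  exact ⟨fun n => M (f n), fun n => ⟨h1 (f n), h2 (f n)⟩, fun m n hmn => hf hmn⟩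

end Pool.Agent.Results.MP_61642b_gt.InfinitelyMany
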